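import Pool.Agent.Helper69.LW.Basic

/-!
# MP_687a20_mp : one-dimensional profiles
-/

open MeasureTheory Set Filter Topology
open scoped ContDiff

namespace LeakyWire

/-- a smooth even cut-off function -/
theorem exists_chi : ∃ χ : ℝ → ℝ, ContDiff ℝ ∞ χ ∧ HasCompactSupport χ ∧ χ 0 = 1 ∧
    (∀ t, χ (-t) = χ t) ∧ (∀ t, |χ t| ≤ 1) ∧ ∃ C, 0 ≤ C ∧ ∀ t, |deriv χ t| ≤ C := by
  let b : ContDiffBump (0 : ℝ) := ⟨1, 2, one_pos, one_lt_two⟩
  have h1 : ContDiff ℝ ∞ b := b.contDiff
  have h2 : HasCompactSupport b := b.hasCompactSupport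
  obtain ⟨C, hC⟩ := (h2.deriv).exists_bound_of_continuous (h1.continuous_deriv (by simp))
  refine ⟨b, h1, h2, ?_, fun t => b.neg t, fun t => ?_, max C 0, le_max_right _ _, fun t => ?_⟩
  · exact b.one_of_mem_closedBall (by simp [b])
  · rw [abs_of_nonneg b.nonneg]; exact b.le_one
  · exact (hC t).trans (le_max_left _ _)

theorem tendsto_eta : Tendsto (fun n : ℕ => (1 : ℝ) / (n + 1)) atTop (𝓝 0) :=
  tendsto_one_div_add_atTop_nhds_zero_nat

theorem eta_pos (n : ℕ) : (0 : ℝ) < 1 / (n + 1) := by positivity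

theorem eta_le (n : ℕ) : (1 : ℝ) / (n + 1) ≤ 1 := by
  rw [div_le_one (by positivity)]
  have : (0 : ℝ) ≤ n := Nat.cast_nonneg n
  linarith

theorem hasDerivAt_cut {χ : ℝ → ℝ} (h : ContDiff ℝ ∞ χ) (η s : ℝ) :
    HasDerivAt (fun s => χ (η * s)) (deriv χ (η * s) * η) s := by
  have h1 : HasDerivAt χ (deriv χ (η * s)) (η * s) :=
    ((h.differentiable (by simp)) _).hasDerivAt
  have h2 : HasDerivAt (fun s => η * s) η s := by
    simpa using (hasDerivAt_id s).const_mul η
  exact h1.comp s h2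

theorem ev_close {a : ℕ → ℝ} {l δ : ℝ} (h : Tendsto a atTop (𝓝 l)) (hδ : 0 < δ) :
    ∀ᶠ n in atTop, |a n - l| ≤ δ := by
  have := (Metric.tendsto_nhds.1 h) δ hδ
  filter_upwards [this] with n hn
  rw [Real.dist_eq] at hn
  exact hn.le

theorem exists_g {ε δ : ℝ} (hε : 0 < ε) (hδ : 0 < δ) :
    ∃ g : ℝ → ℝ, ContDiff ℝ ∞ g ∧ HasCompactSupport g ∧ g 0 = 1 ∧
      |(∫ s in Ioi (0 : ℝ), g s ^ 2) - 1 / (2 * ε)| ≤ δ ∧
      |(∫ s in Ioi (0 : ℝ), deriv g s ^ 2) - ε / 2| ≤ δ := by
  obtain ⟨χ, c1, c2, c3, -, c5, C, hC0, hC⟩ := exists_chi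
  let G : ℕ → ℝ → ℝ := fun n s => Real.exp (-ε * s) * χ (1 / (n + 1) * s)
  let G' : ℕ → ℝ → ℝ := fun n s => Real.exp (-ε * s) * (-ε) * χ (1 / (n + 1) * s) +
    Real.exp (-ε * s) * (deriv χ (1 / (n + 1) * s) * (1 / (n + 1)))
  have hder : ∀ n s, HasDerivAt (G n) (G' n s) s := by
    intro n s
    have h1 : HasDerivAt (fun s : ℝ => -ε * s) (-ε) s := by
      simpa using (hasDerivAt_id s).const_mul (-ε)
    exact h1.exp.mul (hasDerivAt_cut c1 _ s)
  have hsm : ∀ n, ContDiff ℝ ∞ (G n) := by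
    intro n
    exact (Real.contDiff_exp.comp (contDiff_const.mul contDiff_id)).mul
      (c1.comp (contDiff_const.mul contDiff_id))
  have hcs : ∀ n, HasCompactSupport (G n) := by
    intro n
    have := c2.comp_smul (eta_pos n).ne'
    exact this.mul_left
  have hint : IntegrableOn (fun s => Real.exp (-(2 * ε) * s)) (Ioi 0) :=
    integrableOn_exp_mul_Ioi (by linarith) 0
  have hval : ∫ s in Ioi (0 : ℝ), Real.exp (-(2 * ε) * s) = 1 / (2 * ε) := by
    rw [integral_exp_mul_Ioi (by linarith : -(2 * ε) < 0) 0, mul_zero, Real.exp_zero]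
    rw [neg_div_neg_eq]
  have hsq : ∀ s, Real.exp (-ε * s) ^ 2 = Real.exp (-(2 * ε) * s) := by
    intro s
    rw [← Real.exp_nat_mul]
    congr 1
    push_cast; ring
  have hχ : ∀ s, Tendsto (fun n : ℕ => χ (1 / (n + 1) * s)) atTop (𝓝 1) := by
    intro s
    have h1 : Tendsto (fun n : ℕ => (1 : ℝ) / (n + 1) * s) atTop (𝓝 (0 * s)) :=
      tendsto_eta.mul_const s
    rw [zero_mul] at h1
    have := (c1.continuous.tendsto 0).comp h1
    rwa [c3] at this
  have hχ' : ∀ s, Tendsto (fun n : ℕ => deriv χ (1 / (n + 1) * s) * (1 / (n + 1))) atTop (𝓝 0) := by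
    intro s
    refine squeeze_zero_norm (a := fun n : ℕ => C * (1 / ((n : ℝ) + 1))) (fun n => ?_) ?_
    · rw [norm_mul, Real.norm_eq_abs, Real.norm_eq_abs, abs_of_pos (eta_pos n)]
      exact mul_le_mul_of_nonneg_right (hC _) (eta_pos n).le
    · simpa using tendsto_eta.const_mul C
  have t1 : Tendsto (fun n => ∫ s in Ioi (0 : ℝ), G n s ^ 2) atTop (𝓝 (1 / (2 * ε))) := by
    rw [← hval]
    refine tendsto_integral_of_dominated_convergence _ (fun n => ?_) hint (fun n => ?_) ?_
    · exact ((hsm n).continuous.pow 2).aestronglyMeasurable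
    · refine Eventually.of_forall fun s => ?_
      rw [Real.norm_eq_abs, abs_pow, ← hsq]
      refine pow_le_pow_left₀ (abs_nonneg _) ?_ 2
      rw [abs_mul, abs_of_pos (Real.exp_pos _)]
      exact mul_le_of_le_one_right (Real.exp_pos _).le (c5 _)
    · refine Eventually.of_forall fun s => ?_
      have := ((hχ s).const_mul (Real.exp (-ε * s))).pow 2
      rw [mul_one, hsq] at this
      exact this
  have t2 : Tendsto (fun n => ∫ s in Ioi (0 : ℝ), G' n s ^ 2) atTop (𝓝 (ε / 2)) := by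
    have hval' : ∫ s in Ioi (0 : ℝ), ε ^ 2 * Real.exp (-(2 * ε) * s) = ε / 2 := by
      rw [integral_const_mul, hval]
      field_simp
    rw [← hval']
    refine tendsto_integral_of_dominated_convergence
      (fun s => (ε + C) ^ 2 * Real.exp (-(2 * ε) * s)) (fun n => ?_) (hint.const_mul _)
      (fun n => ?_) ?_
    · have : G' n = deriv (G n) := by
        funext s; exact (hder n s).deriv.symm
      rw [this]
      exact (((hsm n).continuous_deriv (by simp)).pow 2).aestronglyMeasurable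
    · refine Eventually.of_forall fun s => ?_
      rw [Real.norm_eq_abs, abs_pow, ← hsq, ← mul_pow]
      refine pow_le_pow_left₀ (abs_nonneg _) ?_ 2
      have h1 : G' n s = Real.exp (-ε * s) * ((-ε) * χ (1 / (n + 1) * s) +
          deriv χ (1 / (n + 1) * s) * (1 / (n + 1))) := by
        simp only [G']; ring
      rw [h1, abs_mul, abs_of_pos (Real.exp_pos _), mul_comm]
      refine mul_le_mul_of_nonneg_right ((abs_add_le _ _).trans (add_le_add ?_ ?_))
        (Real.exp_pos _).le
      · rw [abs_mul, abs_neg, abs_of_pos hε]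
        exact mul_le_of_le_one_right hε.le (c5 _)
      · rw [abs_mul, abs_of_pos (eta_pos n)]
        calc |deriv χ (1 / (n + 1) * s)| * (1 / (n + 1)) ≤ C * 1 :=
              mul_le_mul (hC _) (eta_le n) (eta_pos n).le hC0
          _ = C := mul_one C
    · refine Eventually.of_forall fun s => ?_
      have := (((hχ s).const_mul (Real.exp (-ε * s) * (-ε))).add
        ((hχ' s).const_mul (Real.exp (-ε * s)))).pow 2
      rw [mul_one, mul_zero, add_zero, mul_pow, hsq, neg_sq,
        mul_comm (Real.exp (-(2 * ε) * s))] at this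
      exact this
  obtain ⟨n, h1, h2⟩ := ((ev_close t1 hδ).and (ev_close t2 hδ)).exists
  refine ⟨G n, hsm n, hcs n, ?_, h1, ?_⟩
  · simp [G, c3]
  · have : deriv (G n) = G' n := by
      funext s; exact (hder n s).deriv
    rw [this]
    exact h2

theorem exists_phi {δ : ℝ} (hδ : 0 < δ) {h : ℝ → ℝ} (hh : Continuous h)
    (hc : HasCompactSupport h) :
    ∃ φ : ℝ → ℝ, ContDiff ℝ ∞ φ ∧ HasCompactSupport φ ∧ (∀ t, φ (-t) = φ t) ∧
      |φ 0 ^ 2 - 1| ≤ δ ∧ |(∫ t, φ t ^ 2) - 2| ≤ δ ∧ |(∫ t, deriv φ t ^ 2) - 1 / 2| ≤ δ ∧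
      |(∫ t, deriv φ t * h t) + 1 / 2 * ∫ t, Real.sign t * gs t * h t| ≤ δ := by
  obtain ⟨χ, c1, c2, c3, c4, c5, C, hC0, hC⟩ := exists_chi
  obtain ⟨B, hB⟩ := hc.exists_bound_of_continuous hh
  have hB0 : 0 ≤ B := (norm_nonneg _).trans (hB 0)
  let r : ℕ → ℝ → ℝ := fun n t => Real.sqrt (t ^ 2 + (1 / ((n : ℝ) + 1)) ^ 2)
  have hpos : ∀ (n : ℕ) (t : ℝ), 0 < t ^ 2 + (1 / ((n : ℝ) + 1)) ^ 2 := by
    intro n t
    have := eta_pos n
    positivity
  have hr0 : ∀ n t, 0 < r n t := fun n t => Real.sqrt_pos.2 (hpos n t)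
  have hrt : ∀ n t, |t| ≤ r n t := by
    intro n t
    rw [← Real.sqrt_sq_eq_abs]
    exact Real.sqrt_le_sqrt (by have := sq_nonneg (1 / ((n : ℝ) + 1)); linarith)
  have hrlim : ∀ t, Tendsto (fun n => r n t) atTop (𝓝 |t|) := by
    intro t
    have h1 : Tendsto (fun n : ℕ => t ^ 2 + (1 / ((n : ℝ) + 1)) ^ 2) atTop (𝓝 (t ^ 2 + 0 ^ 2)) :=
      (tendsto_eta.pow 2).const_add _
    have h2 := (Real.continuous_sqrt.tendsto _).comp h1
    rw [zero_pow two_ne_zero, add_zero, Real.sqrt_sq_eq_abs] at h2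
    exact h2
  let P : ℕ → ℝ → ℝ := fun n t => Real.exp (-r n t / 2) * χ (1 / (n + 1) * t)
  let P' : ℕ → ℝ → ℝ := fun n t => Real.exp (-r n t / 2) * (-(t / r n t) / 2) *
    χ (1 / (n + 1) * t) + Real.exp (-r n t / 2) * (deriv χ (1 / (n + 1) * t) * (1 / (n + 1)))
  have hder : ∀ n t, HasDerivAt (P n) (P' n t) t := by
    intro n t
    have h1 : HasDerivAt (fun t : ℝ => t ^ 2 + (1 / ((n : ℝ) + 1)) ^ 2) (2 * t) t := by
      have := (hasDerivAt_pow 2 t).add_const ((1 / ((n : ℝ) + 1)) ^ 2)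
      simpa using this
    have h2 : HasDerivAt (r n) (t / r n t) t := by
      have := h1.sqrt (hpos n t).ne'
      convert this using 1
      simp only [r]
      field_simp
    have h3 : HasDerivAt (fun t => -r n t / 2) (-(t / r n t) / 2) t := h2.neg.div_const 2
    exact h3.exp.mul (hasDerivAt_cut c1 _ t)
  have hsm : ∀ n, ContDiff ℝ ∞ (P n) := by
    intro n
    have h1 : ContDiff ℝ ∞ (r n) := by
      refine ContDiff.sqrt ?_ (fun t => (hpos n t).ne')
      exact (contDiff_id.pow 2).add contDiff_const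
    exact (Real.contDiff_exp.comp (h1.neg.div_const 2)).mul
      (c1.comp (contDiff_const.mul contDiff_id))
  have hcs : ∀ n, HasCompactSupport (P n) := by
    intro n
    have := c2.comp_smul (eta_pos n).ne'
    exact this.mul_left
  have hexp : ∀ n t, Real.exp (-r n t / 2) ≤ gs t := by
    intro n t
    unfold gs
    apply Real.exp_le_exp.2
    have := hrt n t
    linarith
  have hP : ∀ n t, |P n t| ≤ gs t := by
    intro n t
    rw [abs_mul, abs_of_pos (Real.exp_pos _)]
    exact (mul_le_of_le_one_right (Real.exp_pos _).le (c5 _)).trans (hexp n t)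
  have hP' : ∀ n t, |P' n t| ≤ (1 + C) * gs t := by
    intro n t
    have h1 : P' n t = Real.exp (-r n t / 2) * ((-(t / r n t) / 2) * χ (1 / (n + 1) * t) +
          deriv χ (1 / (n + 1) * t) * (1 / (n + 1))) := by
      simp only [P']; ring
    rw [h1, abs_mul, abs_of_pos (Real.exp_pos _), mul_comm]
    refine mul_le_mul ((abs_add_le _ _).trans (add_le_add ?_ ?_)) (hexp n t)
      (Real.exp_pos _).le (by positivity)
    · rw [abs_mul]
      refine mul_le_one₀ ?_ (abs_nonneg _) (c5 _)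
      rw [abs_div, abs_neg, abs_div, abs_of_pos (hr0 n t), abs_two]
      have : |t| / r n t ≤ 1 := (div_le_one (hr0 n t)).2 (hrt n t)
      linarith
    · rw [abs_mul, abs_of_pos (eta_pos n)]
      calc |deriv χ (1 / (n + 1) * t)| * (1 / (n + 1)) ≤ C * 1 :=
            mul_le_mul (hC _) (eta_le n) (eta_pos n).le hC0
        _ = C := mul_one C
  have hχ : ∀ s, Tendsto (fun n : ℕ => χ (1 / (n + 1) * s)) atTop (𝓝 1) := by
    intro s
    have h1 : Tendsto (fun n : ℕ => (1 : ℝ) / (n + 1) * s) atTop (𝓝 (0 * s)) :=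
      tendsto_eta.mul_const s
    rw [zero_mul] at h1
    have := (c1.continuous.tendsto 0).comp h1
    rwa [c3] at this
  have hχ' : ∀ s, Tendsto (fun n : ℕ => deriv χ (1 / (n + 1) * s) * (1 / (n + 1))) atTop (𝓝 0) := by
    intro s
    refine squeeze_zero_norm (a := fun n : ℕ => C * (1 / ((n : ℝ) + 1))) (fun n => ?_) ?_
    · rw [norm_mul, Real.norm_eq_abs, Real.norm_eq_abs, abs_of_pos (eta_pos n)]
      exact mul_le_mul_of_nonneg_right (hC _) (eta_pos n).le
    · simpa using tendsto_eta.const_mul C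
  have hE : ∀ t, Tendsto (fun n => Real.exp (-r n t / 2)) atTop (𝓝 (gs t)) := by
    intro t
    exact (Real.continuous_exp.tendsto _).comp ((hrlim t).neg.div_const 2)
  have hPlim : ∀ t, Tendsto (fun n => P n t) atTop (𝓝 (gs t)) := by
    intro t
    have := (hE t).mul (hχ t)
    rwa [mul_one] at this
  have hP'lim : ∀ t, t ≠ 0 → Tendsto (fun n => P' n t) atTop (𝓝 (-(Real.sign t / 2) * gs t)) := by
    intro t ht
    have h1 : Tendsto (fun n => -(t / r n t) / 2) atTop (𝓝 (-(t / |t|) / 2)) :=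
      (tendsto_const_nhds.div (hrlim t) (abs_ne_zero.2 ht)).neg.div_const 2
    have h2 := (((hE t).mul h1).mul (hχ t)).add ((hE t).mul (hχ' t))
    have h3 : t / |t| = Real.sign t := by
      rcases lt_or_gt_of_ne ht with h | h
      · rw [abs_of_neg h, Real.sign_of_neg h, div_neg, div_self ht]
      · rw [abs_of_pos h, Real.sign_of_pos h, div_self ht]
    rw [mul_one, mul_zero, add_zero, h3] at h2
    convert h2 using 2
    ring
  have hae : ∀ᵐ t : ℝ, t ≠ 0 := by
    rw [ae_iff]
    simp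
  have hmeas : ∀ n, Continuous (P' n) := by
    intro n
    have : P' n = deriv (P n) := by
      funext s; exact (hder n s).deriv.symm
    rw [this]
    exact (hsm n).continuous_deriv (by simp)
  have gsq : Integrable (fun t => gs t ^ 2) := by
    refine gs_integrable.mono' (gs_cont.pow 2).aestronglyMeasurable
      (Eventually.of_forall fun t => ?_)
    rw [Real.norm_eq_abs, abs_of_nonneg (sq_nonneg _)]
    exact gs_sq_le t
  have t0 : Tendsto (fun n => P n 0 ^ 2) atTop (𝓝 1) := by
    have := (hPlim 0).pow 2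
    rwa [gs_zero, one_pow] at this
  have t1 : Tendsto (fun n => ∫ t, P n t ^ 2) atTop (𝓝 2) := by
    rw [← gs_sq_integral]
    refine tendsto_integral_of_dominated_convergence (fun t => gs t ^ 2)
      (fun n => ((hsm n).continuous.pow 2).aestronglyMeasurable) gsq (fun n => ?_) ?_
    · refine Eventually.of_forall fun t => ?_
      rw [Real.norm_eq_abs, abs_pow]
      exact pow_le_pow_left₀ (abs_nonneg _) (hP n t) 2
    · exact Eventually.of_forall fun t => (hPlim t).pow 2
  have t2 : Tendsto (fun n => ∫ t, P' n t ^ 2) atTop (𝓝 (1 / 2)) := by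
    have hv : ∫ t, (-(Real.sign t / 2) * gs t) ^ 2 = 1 / 2 := by
      have : ∫ t, (-(Real.sign t / 2) * gs t) ^ 2 = ∫ t, 1 / 4 * gs t ^ 2 := by
        refine integral_congr_ae ?_
        filter_upwards [hae] with t ht
        have hs : Real.sign t ^ 2 = 1 := by
          rcases lt_or_gt_of_ne ht with h | h
          · rw [Real.sign_of_neg h]; norm_num
          · rw [Real.sign_of_pos h]; norm_num
        have : (-(Real.sign t / 2) * gs t) ^ 2 = Real.sign t ^ 2 / 4 * gs t ^ 2 := by ring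
        rw [this, hs]
      rw [this, integral_const_mul, gs_sq_integral]
      norm_num
    rw [← hv]
    refine tendsto_integral_of_dominated_convergence (fun t => (1 + C) ^ 2 * gs t ^ 2)
      (fun n => ((hmeas n).pow 2).aestronglyMeasurable) (gsq.const_mul _) (fun n => ?_) ?_
    · refine Eventually.of_forall fun t => ?_
      rw [Real.norm_eq_abs, abs_pow, ← mul_pow]
      exact pow_le_pow_left₀ (abs_nonneg _) (hP' n t) 2
    · filter_upwards [hae] with t ht
      exact (hP'lim t ht).pow 2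
  have t3 : Tendsto (fun n => ∫ t, P' n t * h t) atTop
      (𝓝 (-(1 / 2 * ∫ t, Real.sign t * gs t * h t))) := by
    have hv : -(1 / 2 * ∫ t, Real.sign t * gs t * h t) =
        ∫ t, -(Real.sign t / 2) * gs t * h t := by
      rw [← integral_const_mul, ← integral_neg]
      refine integral_congr_ae (Eventually.of_forall fun t => ?_)
      simp only
      ring
    rw [hv]
    refine tendsto_integral_of_dominated_convergence (fun t => (1 + C) * B * gs t)
      (fun n => ((hmeas n).mul hh).aestronglyMeasurable) (gs_integrable.const_mul _)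
      (fun n => ?_) ?_
    · refine Eventually.of_forall fun t => ?_
      rw [norm_mul]
      calc ‖P' n t‖ * ‖h t‖ ≤ ((1 + C) * gs t) * B :=
            mul_le_mul (hP' n t) (hB t) (norm_nonneg _)
              (mul_nonneg (by linarith) (gs_pos t).le)
        _ = (1 + C) * B * gs t := by ring
    · filter_upwards [hae] with t ht
      exact (hP'lim t ht).mul_const (h t)
  obtain ⟨n, h0, h1, h2, h3⟩ := ((ev_close t0 hδ).and ((ev_close t1 hδ).and
    ((ev_close t2 hδ).and (ev_close t3 hδ)))).exists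
  have hd : deriv (P n) = P' n := by
    funext s; exact (hder n s).deriv
  refine ⟨P n, hsm n, hcs n, ?_, h0, h1, ?_, ?_⟩
  · intro t
    simp only [P, r]
    rw [mul_neg, c4, neg_sq]
  · rw [hd]; exact h2
  · rw [hd]
    rwa [sub_neg_eq_add] at h3

end LeakyWire
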